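import Pool.Agent.Helper40.DZ.Stmts
import Pool.Agent.Helper72.CZ.TPT

/-!
PAT: trigonometric polynomials along the multiples of primes (MP_7a8f48_an).
-/

open Finset Filter MeasureTheory Topology
open scoped ComplexConjugate InnerProductSpace

namespace Pool.Agent.Helper40.DZ

open Pool.Agent.Helper16.AZ (T E Op mm fc)
open Pool.Agent.Helper16.BZ (co Wk EE ff EQ pdt_Z pdt_Z_symm pdt_norm)
open Pool.Agent.Helper16.CZ (Tw Orth Fn tpt_l tpt_l_le tpt_l_mem tpt_key tpt_ne tpt_orth tpt_zero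
  tpt_same)
open Pool.Agent.Helper16.MD (MS PB Am RW Rich)
open UnitAddTorus (mFourier)

/-- equal keys for different primes mean divisibility on the top level -/
theorem pat_key {r : ℕ} (lev : Fin r → ℕ) {p p' : ℕ} (hp : p.Prime) (hp' : p'.Prime)
    (hne : p ≠ p') {X X' : Fin r → ℤ} (hX : X ≠ 0)
    (hk : tpt_key lev p X = tpt_key lev p' X') : X ∈ RR lev p' := by
  refine ⟨hX, fun i hi => ?_⟩
  obtain ⟨j, hj, hj2⟩ := tpt_l_mem lev X hX
  have h1 : tpt_l lev X = tpt_l lev X' := congrArg Prod.fst hk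
  have h2 := congrFun (congrArg Prod.snd hk) i
  have h3 : tpt_l lev X ≤ lev i := by rw [← hj]; exact hi j hj2
  rcases h3.lt_or_eq with h4 | h4
  · have h5 : X i = 0 := by
      by_contra h6
      exact absurd (tpt_l_le lev X i h6) (not_le.2 h4)
    rw [h5]
    exact dvd_zero _
  · simp only [tpt_key, ← h1] at h2
    rw [if_pos h4.symm, if_pos h4.symm] at h2
    have h7 : (p' : ℤ) ∣ (p : ℤ) ^ (lev i + 1) * X i := by
      rw [h2]
      exact Dvd.dvd.mul_right (dvd_pow_self _ (Nat.succ_ne_zero _)) _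
    have h8 : IsCoprime (p' : ℤ) ((p : ℤ) ^ (lev i + 1)) :=
      IsCoprime.pow_right (Nat.isCoprime_iff_coprime.2 ((Nat.coprime_primes hp' hp).2 hne.symm))
    exact h8.dvd_of_dvd_mul_left h7

/-- averages of products -/
noncomputable def pat_av (u v : ℕ → ℂ) (M : ℕ) : ℂ := (∑ y ∈ Icc 1 M, u y * conj (v y)) / (M : ℂ)

theorem pat_av_sum {ι κ : Type} (A : Finset ι) (B : Finset κ) (c : ι → ℂ) (d : κ → ℂ)
    (u : ι → ℕ → ℂ) (v : κ → ℕ → ℂ) (M : ℕ) :
    pat_av (fun y => ∑ i ∈ A, c i * u i y) (fun y => ∑ j ∈ B, d j * v j y) M =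
      ∑ i ∈ A, ∑ j ∈ B, c i * conj (d j) * pat_av (u i) (v j) M := by
  unfold pat_av
  have h1 : ∀ y, (∑ i ∈ A, c i * u i y) * conj (∑ j ∈ B, d j * v j y) =
      ∑ i ∈ A, ∑ j ∈ B, c i * conj (d j) * (u i y * conj (v j y)) := by
    intro y
    rw [map_sum, Finset.sum_mul_sum]
    refine Finset.sum_congr rfl fun i _ => Finset.sum_congr rfl fun j _ => ?_
    rw [map_mul]
    ring
  simp only [h1]
  rw [Finset.sum_comm, Finset.sum_div]
  refine Finset.sum_congr rfl fun i _ => ?_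
  rw [Finset.sum_comm, Finset.sum_div]
  refine Finset.sum_congr rfl fun j _ => ?_
  rw [← Finset.mul_sum, mul_div_assoc]

theorem pat_av_norm (u : ℕ → ℂ) (M : ℕ) :
    (pat_av u u M).re = (∑ y ∈ Icc 1 M, ‖u y‖ ^ 2) / M := by
  have h1 : pat_av u u M = (((∑ y ∈ Icc 1 M, ‖u y‖ ^ 2) / M : ℝ) : ℂ) := by
    unfold pat_av
    push_cast
    congr 1
    exact Finset.sum_congr rfl fun y _ => by rw [Complex.mul_conj']
  rw [h1, Complex.ofReal_re]

theorem pat_av_re (u v : ℕ → ℂ) (M : ℕ) :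
    (pat_av u v M).re ≤ ((pat_av u u M).re + (pat_av v v M).re) / 2 := by
  rw [pat_av_norm, pat_av_norm]
  have h1 : (pat_av u v M).re = (∑ y ∈ Icc 1 M, (u y * conj (v y)).re) / M := by
    unfold pat_av
    rw [← Complex.ofReal_natCast, Complex.div_ofReal_re, Complex.re_sum]
  rw [h1, ← add_div, ← Finset.sum_add_distrib, div_right_comm, ]
  refine div_le_div_of_nonneg_right ?_ (Nat.cast_nonneg M)
  rw [Finset.sum_div]
  refine Finset.sum_le_sum fun y _ => ?_
  have h2 : (u y * conj (v y)).re ≤ ‖u y‖ * ‖v y‖ := by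
    refine (Complex.re_le_norm _).trans (le_of_eq ?_)
    rw [norm_mul, RCLike.norm_conj]
  nlinarith [sq_nonneg (‖u y‖ - ‖v y‖)]

theorem st_PAT (h1 : Pool.Agent.Helper16.CZ.ST_TPO) (_h2 : Pool.Agent.Helper16.CZ.ST_TEQ) :
    ST_PAT := by
  classical
  intro r lev D ψ S hT x Q A a hQ h0A ε hε
  obtain ⟨e, he⟩ : ∃ e : ℕ → (Fin r → ℤ) → ℕ → ℂ, e = fun p X y => mFourier X (S^[p * y] x) :=
    ⟨_, rfl⟩
  have hdiag : ∀ p X, Tendsto (fun M => pat_av (e p X) (e p X) M) atTop (𝓝 1) := by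
    intro p X
    have h3 : ∀ᶠ M : ℕ in atTop, pat_av (e p X) (e p X) M = 1 := by
      filter_upwards [eventually_gt_atTop 0] with M hM
      unfold pat_av
      have h4 : ∀ y ∈ Icc 1 M, e p X y * conj (e p X y) = 1 := by
        intro y _
        rw [Complex.mul_conj', he]
        have h5 : ‖mFourier X (S^[p * y] x)‖ = 1 := by
          have h6 : mFourier X (S^[p * y] x) * mFourier (-X) (S^[p * y] x) = 1 := by
            rw [← UnitAddTorus.mFourier_add, add_neg_cancel, UnitAddTorus.mFourier_zero]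
            rfl
          rw [UnitAddTorus.mFourier_neg, Complex.mul_conj'] at h6
          have h7 : ‖mFourier X (S^[p * y] x)‖ ^ 2 = 1 := by exact_mod_cast h6
          exact (pow_eq_one_iff_of_nonneg (norm_nonneg _) two_ne_zero).1 h7
        simp only
        rw [h5]
        norm_num
      rw [Finset.sum_congr rfl h4, Finset.sum_const, Nat.card_Icc, Nat.add_sub_cancel,
        nsmul_eq_mul, mul_one]
      exact div_self (Nat.cast_ne_zero.2 hM.ne')
    exact (tendsto_congr' h3).2 tendsto_const_nhds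
  have hsame : ∀ p ∈ Q, ∀ X X', Tendsto (fun M => pat_av (e p X) (e p X') M) atTop
      (𝓝 (if X = X' then 1 else 0)) := by
    intro p hp X X'
    split_ifs with h3
    · rw [← h3]; exact hdiag p X
    · have := tpt_same h1 lev D ψ S x hT p (hQ p hp).one_lt.le X X' h3
      rw [he]; exact this
  have hoff : ∀ p ∈ Q, ∀ p' ∈ Q, p ≠ p' → ∀ X X', ¬ (X ∈ RR lev p' ∧ X' ∈ RR lev p) →
      Tendsto (fun M => pat_av (e p X) (e p' X') M) atTop
      (𝓝 (if X = 0 ∧ X' = 0 then 1 else 0)) := by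
    intro p hp p' hp' hne X X' hr
    have e0 : ∀ p, e p 0 = fun _ => 1 := by
      intro p
      rw [he]
      funext y
      simp only [UnitAddTorus.mFourier_zero, ContinuousMap.one_apply]
    rcases eq_or_ne X 0 with hX | hX
    · rcases eq_or_ne X' 0 with hX' | hX'
      · rw [if_pos ⟨hX, hX'⟩, hX, hX', e0 p, ← e0 p', e0 p']
        have := hdiag p 0
        rwa [e0 p] at this
      · rw [if_neg (fun h => hX' h.2), hX, e0 p]
        have := tpt_zero h1 lev D ψ S x hT p' (hQ p' hp').one_lt.le X' hX'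
        rw [he]
        exact pdt_Z_symm this
    · rw [if_neg (fun h => hX h.1)]
      rcases eq_or_ne X' 0 with hX' | hX'
      · rw [hX', e0 p']
        have := tpt_zero h1 lev D ψ S x hT p (hQ p hp).one_lt.le X hX
        rw [he]
        exact this
      · have := tpt_orth h1 lev D ψ S x hT p p' (hQ p hp).one_lt.le (hQ p' hp').one_lt.le X X' hX
          hX' (fun hk => hr ⟨pat_key lev (hQ p hp) (hQ p' hp') hne hX hk,
            pat_key lev (hQ p' hp') (hQ p hp) hne.symm hX' hk.symm⟩)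
        rw [he]
        exact this
  -- the functions
  obtain ⟨G, hG⟩ : ∃ G : ℕ → ℕ → ℂ, G = fun p y => ∑ X ∈ A, a p X * e p X y := ⟨_, rfl⟩
  obtain ⟨B, hB⟩ : ∃ B : ℕ → Finset (Fin r → ℤ), B = fun q => A.filter (fun X => X ∈ RR lev q) :=
    ⟨_, rfl⟩
  obtain ⟨R, hR⟩ : ∃ R : ℕ → ℕ → ℕ → ℂ, R = fun p q y => ∑ X ∈ B q, a p X * e p X y := ⟨_, rfl⟩
  obtain ⟨P, hP⟩ : ∃ P : ℕ → ℕ → ℕ → ℂ, P = fun p p' M => ∑ X ∈ A, ∑ X' ∈ A,
      if X ∈ RR lev p' ∧ X' ∈ RR lev p then 0 else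
        a p X * conj (a p' X') * pat_av (e p X) (e p' X') M := ⟨_, rfl⟩
  obtain ⟨m, hm⟩ : ∃ m : ℕ → ℕ → ℝ, m = fun p q => ∑ X ∈ B q, ‖a p X‖ ^ 2 := ⟨_, rfl⟩
  -- limits
  have lsub : ∀ p ∈ Q, ∀ C : Finset (Fin r → ℤ), Tendsto (fun M => (pat_av
      (fun y => ∑ X ∈ C, a p X * e p X y) (fun y => ∑ X ∈ C, a p X * e p X y) M).re) atTop
      (𝓝 (∑ X ∈ C, ‖a p X‖ ^ 2)) := by
    intro p hp C
    have h3 : Tendsto (fun M => pat_av
      (fun y => ∑ X ∈ C, a p X * e p X y) (fun y => ∑ X ∈ C, a p X * e p X y) M) atTop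
      (𝓝 (∑ X ∈ C, ∑ X' ∈ C, a p X * conj (a p X') * (if X = X' then 1 else 0))) := by
      simp only [pat_av_sum]
      exact tendsto_finsetSum _ fun X _ => tendsto_finsetSum _ fun X' _ =>
        (hsame p hp X X').const_mul _
    have h4 : ∑ X ∈ C, ∑ X' ∈ C, a p X * conj (a p X') * (if X = X' then 1 else 0) =
        ((∑ X ∈ C, ‖a p X‖ ^ 2 : ℝ) : ℂ) := by
      push_cast
      refine Finset.sum_congr rfl fun X hX => ?_
      rw [Finset.sum_eq_single X]
      · rw [if_pos rfl, mul_one, Complex.mul_conj']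
      · intro X' _ hne
        rw [if_neg hne.symm, mul_zero]
      · intro h; exact absurd hX h
    rw [h4] at h3
    have h5 := (Complex.continuous_re.tendsto _).comp h3
    rw [Complex.ofReal_re] at h5
    exact h5
  have lP : ∀ p ∈ Q, ∀ p' ∈ Q, p ≠ p' → Tendsto (fun M => (P p p' M).re) atTop
      (𝓝 (a p 0 * conj (a p' 0)).re) := by
    intro p hp p' hp' hne
    have h3 : Tendsto (P p p') atTop (𝓝 (∑ X ∈ A, ∑ X' ∈ A,
        if X = 0 ∧ X' = 0 then a p X * conj (a p' X') else 0)) := by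
      rw [hP]
      refine tendsto_finsetSum _ fun X _ => tendsto_finsetSum _ fun X' _ => ?_
      by_cases h4 : X ∈ RR lev p' ∧ X' ∈ RR lev p
      · have h5 : ¬ (X = 0 ∧ X' = 0) := fun h => h4.1.1 h.1
        simp only [if_pos h4, if_neg h5]
        exact tendsto_const_nhds
      · simp only [if_neg h4]
        have h5 := (hoff p hp p' hp' hne X X' h4).const_mul (a p X * conj (a p' X'))
        split_ifs with h6
        · rw [if_pos h6, mul_one] at h5; exact h5
        · rw [if_neg h6, mul_zero] at h5; exact h5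
    have h4 : ∑ X ∈ A, ∑ X' ∈ A, (if X = 0 ∧ X' = 0 then a p X * conj (a p' X') else 0) =
        a p 0 * conj (a p' 0) := by
      rw [Finset.sum_eq_single 0, Finset.sum_eq_single 0]
      · simp
      · intro X' _ h; rw [if_neg (fun h' => h h'.2)]
      · intro h; exact absurd h0A h
      · intro X _ h
        exact Finset.sum_eq_zero fun X' _ => by rw [if_neg (fun h' => h h'.1)]
      · intro h; exact absurd h0A h
    rw [h4] at h3
    exact (Complex.continuous_re.tendsto _).comp h3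
  -- decomposition of the mixed terms
  have hdec : ∀ p p' M, pat_av (G p) (G p') M = P p p' M + pat_av (R p p') (R p' p) M := by
    intro p p' M
    rw [hG, hR, hP]
    simp only
    rw [pat_av_sum, pat_av_sum]
    have h3 : ∑ X ∈ B p', ∑ X' ∈ B p, a p X * conj (a p' X') * pat_av (e p X) (e p' X') M =
        ∑ X ∈ A, ∑ X' ∈ A, if X ∈ RR lev p' ∧ X' ∈ RR lev p then
          a p X * conj (a p' X') * pat_av (e p X) (e p' X') M else 0 := by
      rw [hB]
      simp only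
      rw [Finset.sum_filter]
      refine Finset.sum_congr rfl fun X _ => ?_
      split_ifs with h4
      · rw [Finset.sum_filter]
        exact Finset.sum_congr rfl fun X' _ => by simp only [h4, true_and]
      · exact (Finset.sum_eq_zero fun X' _ => by rw [if_neg (fun h => h4 h.1)]).symm
    rw [h3, ← Finset.sum_add_distrib]
    refine Finset.sum_congr rfl fun X _ => ?_
    rw [← Finset.sum_add_distrib]
    refine Finset.sum_congr rfl fun X' _ => ?_
    split_ifs <;> ring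
  -- the total
  have htot : ∀ M : ℕ, (∑ y ∈ Icc 1 M, ‖∑ p ∈ Q, G p y‖ ^ 2) / M =
      ∑ p ∈ Q, ((pat_av (G p) (G p) M).re + ∑ q ∈ Q.erase p, (pat_av (G p) (G q) M).re) := by
    intro M
    rw [← pat_av_norm]
    have h3 := pat_av_sum Q Q (fun _ => 1) (fun _ => 1) G G M
    simp only [one_mul, map_one] at h3
    rw [h3, Complex.re_sum]
    refine Finset.sum_congr rfl fun p hp => ?_
    rw [Complex.re_sum, ← Finset.add_sum_erase Q _ hp]
  obtain ⟨U, hU⟩ : ∃ U : ℕ → ℝ, U = fun M => ∑ p ∈ Q, ((pat_av (G p) (G p) M).re +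
      ∑ q ∈ Q.erase p, ((P p q M).re + ((pat_av (R p q) (R p q) M).re +
        (pat_av (R q p) (R q p) M).re) / 2)) := ⟨_, rfl⟩
  have hle : ∀ M : ℕ, (∑ y ∈ Icc 1 M, ‖∑ p ∈ Q, G p y‖ ^ 2) / M ≤ U M := by
    intro M
    rw [htot, hU]
    refine Finset.sum_le_sum fun p _ => ?_
    refine add_le_add le_rfl (Finset.sum_le_sum fun q _ => ?_)
    rw [hdec, Complex.add_re]
    exact add_le_add le_rfl (pat_av_re _ _ M)
  have hlim : Tendsto U atTop (𝓝 (∑ p ∈ Q, (∑ X ∈ A, ‖a p X‖ ^ 2 +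
      ∑ q ∈ Q.erase p, ((a p 0 * conj (a q 0)).re + (m p q + m q p) / 2)))) := by
    rw [hU]
    refine tendsto_finsetSum _ fun p hp => ?_
    refine Tendsto.add ?_ (tendsto_finsetSum _ fun q hq => ?_)
    · rw [hG]; exact lsub p hp A
    · obtain ⟨hqp, hqQ⟩ := Finset.mem_erase.1 hq
      refine (lP p hp q hqQ hqp.symm).add (Tendsto.div_const (Tendsto.add ?_ ?_) 2)
      · rw [hR, hm]; exact lsub p hp (B q)
      · rw [hR, hm]; exact lsub q hqQ (B p)
  have hval : ∑ p ∈ Q, (∑ X ∈ A, ‖a p X‖ ^ 2 +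
      ∑ q ∈ Q.erase p, ((a p 0 * conj (a q 0)).re + (m p q + m q p) / 2)) ≤
      ‖∑ p ∈ Q, a p 0‖ ^ 2 + ∑ p ∈ Q, ∑ X ∈ A, ‖a p X‖ ^ 2 +
      ∑ p ∈ Q, ∑ q ∈ Q.erase p, ∑ X ∈ A, (RR lev q).indicator (fun X => ‖a p X‖ ^ 2) X := by
    have h3 : ‖∑ p ∈ Q, a p 0‖ ^ 2 = ∑ p ∈ Q, ‖a p 0‖ ^ 2 +
        ∑ p ∈ Q, ∑ q ∈ Q.erase p, (a p 0 * conj (a q 0)).re := by
      have h4 : ((‖∑ p ∈ Q, a p 0‖ ^ 2 : ℝ) : ℂ) = ∑ p ∈ Q, ∑ q ∈ Q, a p 0 * conj (a q 0) := by
        push_cast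
        rw [← Complex.mul_conj', map_sum, Finset.sum_mul_sum]
      have h5 := congrArg Complex.re h4
      rw [Complex.ofReal_re, Complex.re_sum] at h5
      rw [h5, ← Finset.sum_add_distrib]
      refine Finset.sum_congr rfl fun p hp => ?_
      rw [Complex.re_sum, ← Finset.add_sum_erase Q _ hp]
      congr 1
      rw [Complex.mul_conj']
      norm_cast
    have h6 : ∀ p q, ∑ X ∈ A, (RR lev q).indicator (fun X => ‖a p X‖ ^ 2) X = m p q := by
      intro p q
      rw [hm, hB]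
      simp only
      rw [Finset.sum_filter]
      refine Finset.sum_congr rfl fun X _ => ?_
      rw [Set.indicator_apply]
    simp only [h6]
    have h7 : ∑ p ∈ Q, ∑ q ∈ Q.erase p, m q p = ∑ p ∈ Q, ∑ q ∈ Q.erase p, m p q := by
      refine Finset.sum_comm' fun p q => ?_
      simp only [Finset.mem_erase]
      constructor
      · rintro ⟨h8, h9, h10⟩; exact ⟨⟨fun h => h9 h.symm, h8⟩, h10⟩
      · rintro ⟨⟨h8, h9⟩, h10⟩; exact ⟨h9, fun h => h8 h.symm, h10⟩
    have h8 : ∑ p ∈ Q, (∑ X ∈ A, ‖a p X‖ ^ 2 +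
        ∑ q ∈ Q.erase p, ((a p 0 * conj (a q 0)).re + (m p q + m q p) / 2)) =
        ∑ p ∈ Q, ∑ X ∈ A, ‖a p X‖ ^ 2 + ∑ p ∈ Q, ∑ q ∈ Q.erase p, (a p 0 * conj (a q 0)).re +
        (∑ p ∈ Q, ∑ q ∈ Q.erase p, m p q + ∑ p ∈ Q, ∑ q ∈ Q.erase p, m q p) / 2 := by
      rw [← Finset.sum_add_distrib, ← Finset.sum_add_distrib, Finset.sum_div,
        ← Finset.sum_add_distrib]
      refine Finset.sum_congr rfl fun p _ => ?_
      rw [Finset.sum_add_distrib, ← Finset.sum_div, Finset.sum_add_distrib]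
      ring
    rw [h8, h7, h3]
    have h9 : 0 ≤ ∑ p ∈ Q, ‖a p 0‖ ^ 2 := Finset.sum_nonneg fun p _ => sq_nonneg _
    linarith
  have hev : ∀ᶠ M in atTop, U M < (‖∑ p ∈ Q, a p 0‖ ^ 2 + ∑ p ∈ Q, ∑ X ∈ A, ‖a p X‖ ^ 2 +
      ∑ p ∈ Q, ∑ q ∈ Q.erase p, ∑ X ∈ A, (RR lev q).indicator (fun X => ‖a p X‖ ^ 2) X) + ε :=
    hlim.eventually (gt_mem_nhds (by linarith))
  filter_upwards [hev, eventually_gt_atTop 0] with M hM hM0
  have hMp : (0 : ℝ) < M := by exact_mod_cast hM0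
  have h3 := (hle M).trans hM.le
  rw [div_le_iff₀ hMp, hG, he] at h3
  exact h3

end Pool.Agent.Helper40.DZ
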