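import Mathlib

/-!
Stationary sequences of vectors: the averages along multiples of `q`, their limits `L q`,
and `∑ (L q - L 1) ≤ ‖w 0‖ ^ 2` over pairwise coprime `q`.
-/

set_option autoImplicit false
noncomputable section
namespace Pool.Agent.Helper29.DZ

open Filter Topology Finset
open scoped ComplexConjugate

variable {E : Type*} [NormedAddCommGroup E] [InnerProductSpace ℂ E]

/-- stationary sequence of vectors -/
def Stat (w : ℕ → E) : Prop := ∀ k l, inner ℂ (w (k + 1)) (w (l + 1)) = inner ℂ (w k) (w l)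

theorem Stat.add {w : ℕ → E} (h : Stat w) (n k l : ℕ) :
    inner ℂ (w (k + n)) (w (l + n)) = inner ℂ (w k) (w l) := by
  induction n with
  | zero => rfl
  | succ n ih => rw [← add_assoc, ← add_assoc, h, ih]

theorem Stat.dil {w : ℕ → E} (h : Stat w) (q : ℕ) : Stat (fun k => w (q * k)) := by
  intro k l
  simp only [mul_add, mul_one]
  exact h.add q _ _

theorem Stat.norm_w {w : ℕ → E} (h : Stat w) (n : ℕ) : ‖w n‖ = ‖w 0‖ := by
  have h1 := h.add n 0 0
  rw [zero_add] at h1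
  have h2 : ‖w n‖ ^ 2 = ‖w 0‖ ^ 2 := by
    rw [@norm_sq_eq_re_inner ℂ, @norm_sq_eq_re_inner ℂ, h1]
  exact (sq_eq_sq₀ (norm_nonneg _) (norm_nonneg _)).1 h2

/-- partial sums -/
def ps (w : ℕ → E) (n : ℕ) : E := ∑ k ∈ range n, w k

theorem Stat.norm_shift {w : ℕ → E} (h : Stat w) (n m : ℕ) :
    ‖∑ k ∈ range n, w (m + k)‖ = ‖ps w n‖ := by
  have h2 : ‖∑ k ∈ range n, w (m + k)‖ ^ 2 = ‖ps w n‖ ^ 2 := by
    rw [@norm_sq_eq_re_inner ℂ, @norm_sq_eq_re_inner ℂ, ps]
    congr 1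
    rw [sum_inner, sum_inner]
    refine sum_congr rfl fun k _ => ?_
    rw [inner_sum, inner_sum]
    refine sum_congr rfl fun l _ => ?_
    rw [add_comm m k, add_comm m l]
    exact h.add m k l
  exact (sq_eq_sq₀ (norm_nonneg _) (norm_nonneg _)).1 h2

theorem Stat.norm_ps_le {w : ℕ → E} (h : Stat w) (n : ℕ) : ‖ps w n‖ ≤ n * ‖w 0‖ := by
  refine (norm_sum_le _ _).trans ?_
  rw [sum_congr rfl fun k _ => h.norm_w k]
  simp

theorem Stat.subadd {w : ℕ → E} (h : Stat w) : Subadditive fun n => ‖ps w n‖ := by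
  intro m n
  have : ps w (m + n) = ps w m + ∑ k ∈ range n, w (m + k) := sum_range_add _ _ _
  show ‖ps w (m + n)‖ ≤ ‖ps w m‖ + ‖ps w n‖
  rw [this, ← h.norm_shift n m]
  exact norm_add_le _ _

omit [InnerProductSpace ℂ E] in
theorem bdd (w : ℕ → E) : BddBelow (Set.range fun n : ℕ => ‖ps w n‖ / n) :=
  ⟨0, by rintro _ ⟨n, rfl⟩; positivity⟩

/-- the limit of the norms of the averages -/
def ell (w : ℕ → E) (h : Stat w) : ℝ := h.subadd.lim

theorem ell_tendsto {w : ℕ → E} (h : Stat w) :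
    Tendsto (fun n : ℕ => ‖ps w n‖ / n) atTop (𝓝 (ell w h)) := h.subadd.tendsto_lim (bdd w)

theorem ell_le {w : ℕ → E} (h : Stat w) {n : ℕ} (hn : n ≠ 0) : ell w h ≤ ‖ps w n‖ / n :=
  h.subadd.lim_le_div (bdd w) hn

theorem ell_nonneg {w : ℕ → E} (h : Stat w) : 0 ≤ ell w h :=
  ge_of_tendsto' (ell_tendsto h) fun n => by positivity

/-- averages -/
def av (w : ℕ → E) (n : ℕ) : E := ((n : ℂ)⁻¹) • ps w n

theorem norm_av (w : ℕ → E) (n : ℕ) : ‖av w n‖ = ‖ps w n‖ / n := by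
  rw [av, norm_smul, norm_inv, Complex.norm_natCast, div_eq_inv_mul]

theorem Stat.norm_av_le {w : ℕ → E} (h : Stat w) (n : ℕ) : ‖av w n‖ ≤ ‖w 0‖ := by
  rw [norm_av]
  rcases Nat.eq_zero_or_pos n with hn | hn
  · subst hn; simp
  · rw [div_le_iff₀ (by positivity), mul_comm]
    exact h.norm_ps_le n

/-- shifting the summation window -/
theorem Stat.window {w : ℕ → E} (h : Stat w) (M k : ℕ) :
    ‖∑ m ∈ range M, w (k + m) - ps w M‖ ≤ 2 * k * ‖w 0‖ := by
  have e1 : ps w (k + M) = ps w k + ∑ m ∈ range M, w (k + m) := sum_range_add _ _ _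
  have e2 : ps w (M + k) = ps w M + ∑ m ∈ range k, w (M + m) := sum_range_add _ _ _
  rw [add_comm M k, e1] at e2
  have e3 : ∑ m ∈ range M, w (k + m) - ps w M = ∑ m ∈ range k, w (M + m) - ps w k := by
    rw [sub_eq_sub_iff_add_eq_add, add_comm _ (ps w k), e2, add_comm]
  rw [e3]
  refine (norm_sub_le _ _).trans ?_
  rw [h.norm_shift]
  have := h.norm_ps_le k
  linarith

theorem Stat.dbl {w : ℕ → E} (h : Stat w) (M k : ℕ) :
    ‖∑ m ∈ range M, ∑ j ∈ range k, w (m + j) - (k : ℂ) • ps w M‖ ≤ 2 * k * k * ‖w 0‖ := by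
  rw [sum_comm]
  have e : (k : ℂ) • ps w M = ∑ j ∈ range k, ps w M := by
    rw [sum_const, card_range, Nat.cast_smul_eq_nsmul]
  rw [e, ← sum_sub_distrib]
  refine (norm_sum_le _ _).trans ?_
  have : ∀ j ∈ range k, ‖∑ m ∈ range M, w (m + j) - ps w M‖ ≤ 2 * k * ‖w 0‖ := by
    intro j hj
    have h1 := h.window M j
    have h2 : ∑ m ∈ range M, w (m + j) = ∑ m ∈ range M, w (j + m) :=
      sum_congr rfl fun m _ => by rw [add_comm]
    rw [h2]
    refine h1.trans ?_
    have h3 : (j : ℝ) ≤ k := by exact_mod_cast (mem_range.1 hj).le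
    have := norm_nonneg (w 0)
    nlinarith
  refine (sum_le_sum this).trans ?_
  rw [sum_const, card_range, nsmul_eq_mul]
  nlinarith [norm_nonneg (w 0)]

theorem Stat.av_av {w : ℕ → E} (h : Stat w) (M : ℕ) {k : ℕ} (hk : k ≠ 0) :
    ‖∑ m ∈ range M, (k : ℂ)⁻¹ • ∑ j ∈ range k, w (m + j) - ps w M‖ ≤ 2 * k * ‖w 0‖ := by
  have hk' : (k : ℂ) ≠ 0 := Nat.cast_ne_zero.2 hk
  have e : ∑ m ∈ range M, (k : ℂ)⁻¹ • ∑ j ∈ range k, w (m + j) - ps w M =
      (k : ℂ)⁻¹ • (∑ m ∈ range M, ∑ j ∈ range k, w (m + j) - (k : ℂ) • ps w M) := by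
    rw [smul_sub, smul_smul, inv_mul_cancel₀ hk', one_smul, smul_sum]
  rw [e, norm_smul, norm_inv, Complex.norm_natCast]
  have h1 := h.dbl M k
  have hk0 : (0 : ℝ) < k := by positivity
  rw [inv_mul_le_iff₀ hk0]
  linarith

/-- convex combinations of two averages are not shorter than `ell` -/
theorem Stat.two_av {w : ℕ → E} (h : Stat w) {k l : ℕ} (hk : k ≠ 0) (hl : l ≠ 0) :
    2 * ell w h ≤ ‖av w k + av w l‖ := by
  have key : ∀ M : ℕ, 2 * ell w h * M ≤ M * ‖av w k + av w l‖ + 2 * (k + l) * ‖w 0‖ := by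
    intro M
    rcases Nat.eq_zero_or_pos M with hM | hM
    · subst hM; simp; positivity
    set g : ℕ → E := fun m => (k : ℂ)⁻¹ • ∑ j ∈ range k, w (m + j) +
      (l : ℂ)⁻¹ • ∑ j ∈ range l, w (m + j) with hg
    have hgn : ∀ m, ‖g m‖ = ‖av w k + av w l‖ := by
      intro m
      have h2 : ‖g m‖ ^ 2 = ‖av w k + av w l‖ ^ 2 := by
        rw [@norm_sq_eq_re_inner ℂ, @norm_sq_eq_re_inner ℂ]
        congr 1
        have gen : ∀ a b : ℕ, inner ℂ (∑ j ∈ range a, w (m + j)) (∑ j ∈ range b, w (m + j)) =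
            inner ℂ (ps w a) (ps w b) := by
          intro a b
          rw [ps, ps, sum_inner, sum_inner]
          refine sum_congr rfl fun i _ => ?_
          rw [inner_sum, inner_sum]
          refine sum_congr rfl fun j _ => ?_
          rw [add_comm m i, add_comm m j]
          exact h.add m i j
        simp only [hg, av, inner_add_left, inner_add_right, inner_smul_left, inner_smul_right, gen]
      exact (sq_eq_sq₀ (norm_nonneg _) (norm_nonneg _)).1 h2
    have h1 : ‖∑ m ∈ range M, g m‖ ≤ M * ‖av w k + av w l‖ := by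
      refine (norm_sum_le _ _).trans ?_
      rw [sum_congr rfl fun m _ => hgn m]
      simp
    have h2 := h.av_av M hk
    have h3 := h.av_av M hl
    have h4 : (2 : ℂ) • ps w M = ∑ m ∈ range M, g m -
        (∑ m ∈ range M, (k : ℂ)⁻¹ • ∑ j ∈ range k, w (m + j) - ps w M) -
        (∑ m ∈ range M, (l : ℂ)⁻¹ • ∑ j ∈ range l, w (m + j) - ps w M) := by
      simp only [hg, sum_add_distrib]
      rw [two_smul]
      abel
    have h5 : ‖(2 : ℂ) • ps w M‖ = 2 * ‖ps w M‖ := by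
      rw [norm_smul]; norm_num
    have h6 : 2 * ‖ps w M‖ ≤ M * ‖av w k + av w l‖ + 2 * k * ‖w 0‖ + 2 * l * ‖w 0‖ := by
      rw [← h5, h4]
      refine (norm_sub_le _ _).trans (add_le_add ((norm_sub_le _ _).trans (add_le_add h1 h2)) h3)
    have h7 := ell_le h hM.ne'
    have hM0 : (0 : ℝ) < M := by positivity
    rw [le_div_iff₀ hM0] at h7
    linarith
  by_contra hlt
  push Not at hlt
  set δ := 2 * ell w h - ‖av w k + av w l‖ with hδ
  have hδ0 : 0 < δ := by linarith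
  obtain ⟨M, hM⟩ := exists_nat_gt (2 * (k + l) * ‖w 0‖ / δ)
  rw [div_lt_iff₀ hδ0] at hM
  have := key M
  nlinarith

theorem Stat.cauchy {w : ℕ → E} (h : Stat w) : CauchySeq (av w) := by
  rw [Metric.cauchySeq_iff]
  intro ε hε
  have ht : Tendsto (fun n : ℕ => ‖av w n‖ ^ 2) atTop (𝓝 (ell w h ^ 2)) := by
    have := (ell_tendsto h).pow 2
    simpa only [← norm_av] using this
  have h1 : ∀ᶠ n in atTop, ‖av w n‖ ^ 2 < ell w h ^ 2 + ε ^ 2 / 4 :=
    ht.eventually (gt_mem_nhds (by have := sq_pos_of_pos hε; linarith))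
  obtain ⟨N, hN⟩ := eventually_atTop.1 h1
  refine ⟨N + 1, fun m hm n hn => ?_⟩
  have hm0 : m ≠ 0 := by omega
  have hn0 : n ≠ 0 := by omega
  have e1 := hN m (by omega)
  have e2 := hN n (by omega)
  have e3 := h.two_av hm0 hn0
  have e4 := parallelogram_law_with_norm ℂ (av w m) (av w n)
  have e5 := ell_nonneg h
  have e6 : (2 * ell w h) ^ 2 ≤ ‖av w m + av w n‖ ^ 2 := by
    exact pow_le_pow_left₀ (by positivity) e3 2
  rw [dist_eq_norm]
  have e7 : ‖av w m - av w n‖ ^ 2 < ε ^ 2 := by nlinarith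
  exact lt_of_pow_lt_pow_left₀ 2 hε.le e7

variable [CompleteSpace E]

/-- the limit of the averages -/
def lim (w : ℕ → E) (h : Stat w) : E := Classical.choose (cauchySeq_tendsto_of_complete h.cauchy)

theorem lim_tendsto {w : ℕ → E} (h : Stat w) : Tendsto (av w) atTop (𝓝 (lim w h)) :=
  Classical.choose_spec (cauchySeq_tendsto_of_complete h.cauchy)

theorem norm_lim {w : ℕ → E} (h : Stat w) : ‖lim w h‖ = ell w h := by
  refine tendsto_nhds_unique (lim_tendsto h).norm ?_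
  have := ell_tendsto h
  simpa only [← norm_av] using this

/-- the inner products with the limit along `q` are `q`-periodic -/
theorem lim_per {w : ℕ → E} (h : Stat w) (q k : ℕ) :
    inner ℂ (w (k + q)) (lim _ (h.dil q)) = inner ℂ (w k) (lim _ (h.dil q)) := by
  have h1 : Tendsto (fun n => inner ℂ (w (k + q)) (av (fun k => w (q * k)) n)) atTop
      (𝓝 (inner ℂ (w (k + q)) (lim _ (h.dil q)))) :=
    tendsto_const_nhds.inner (lim_tendsto (h.dil q))
  have h2 : Tendsto (fun n => inner ℂ (w k) (av (fun k => w (q * k)) n)) atTop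
      (𝓝 (inner ℂ (w k) (lim _ (h.dil q)))) :=
    tendsto_const_nhds.inner (lim_tendsto (h.dil q))
  have h3 : ∀ n : ℕ, inner ℂ (w (k + q)) (av (fun k => w (q * k)) n) -
      inner ℂ (w k) (av (fun k => w (q * k)) n) =
      (n : ℂ)⁻¹ * (inner ℂ (w (k + q)) (w 0) - inner ℂ (w (k + q)) (w (q * n))) := by
    intro n
    rw [av, inner_smul_right, inner_smul_right, ← mul_sub]
    congr 1
    have e1 : inner ℂ (w k) (ps (fun k => w (q * k)) n) =
        inner ℂ (w (k + q)) (∑ j ∈ range n, w (q * (j + 1))) := by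
      rw [ps, inner_sum, inner_sum]
      refine sum_congr rfl fun j _ => ?_
      rw [mul_add, mul_one, h.add q]
    have e2 : ps (fun k => w (q * k)) n + w (q * n) = ∑ j ∈ range n, w (q * (j + 1)) + w 0 := by
      have a1 := sum_range_succ (fun k => w (q * k)) n
      have a2 := sum_range_succ' (fun k => w (q * k)) n
      rw [a1] at a2
      rw [mul_zero] at a2
      exact a2
    rw [e1]
    have e3 : ps (fun k => w (q * k)) n = ∑ j ∈ range n, w (q * (j + 1)) + w 0 - w (q * n) :=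
      eq_sub_of_add_eq e2
    rw [e3, inner_sub_right, inner_add_right]
    ring
  have h4 : Tendsto (fun n : ℕ => (n : ℂ)⁻¹ * (inner ℂ (w (k + q)) (w 0) -
      inner ℂ (w (k + q)) (w (q * n)))) atTop (𝓝 0) := by
    rw [tendsto_zero_iff_norm_tendsto_zero]
    refine squeeze_zero (fun _ => norm_nonneg _) (g := fun n : ℕ => (n : ℝ)⁻¹ *
      (2 * ‖w 0‖ ^ 2)) ?_ ?_
    · intro n
      rw [norm_mul, norm_inv, Complex.norm_natCast]
      refine mul_le_mul_of_nonneg_left ?_ (by positivity)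
      refine (norm_sub_le _ _).trans ?_
      have a1 := norm_inner_le_norm (𝕜 := ℂ) (w (k + q)) (w 0)
      have a2 := norm_inner_le_norm (𝕜 := ℂ) (w (k + q)) (w (q * n))
      rw [h.norm_w] at a1 a2
      rw [h.norm_w (q * n)] at a2
      nlinarith
    · have := (tendsto_inv_atTop_nhds_zero_nat (𝕜 := ℝ)).mul_const (2 * ‖w 0‖ ^ 2)
      simpa using this
  have h5 := h1.sub h2
  simp only [h3] at h5
  exact sub_eq_zero.1 (tendsto_nhds_unique h5 h4)

/-- the limit along `1` is invariant -/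
theorem inner_lim_one {w : ℕ → E} (h : Stat w) (k : ℕ) :
    inner ℂ (w k) (lim _ (h.dil 1)) = inner ℂ (w 0) (lim _ (h.dil 1)) := by
  induction k with
  | zero => rfl
  | succ k ih => rw [lim_per h 1 k, ih]

theorem per_mul {F : ℕ → ℂ} {q : ℕ} (hF : ∀ k, F (k + q) = F k) (n k : ℕ) :
    F (k + q * n) = F k := by
  induction n with
  | zero => rfl
  | succ n ih => rw [mul_add, mul_one, ← add_assoc, hF, ih]

theorem per_mod {F : ℕ → ℂ} {q : ℕ} (hF : ∀ k, F (k + q) = F k) (k : ℕ) : F (k % q) = F k := by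
  conv_rhs => rw [← Nat.mod_add_div k q]
  rw [per_mul hF]

/-- sums of a periodic function over multiples of a coprime number -/
theorem per_sum {F : ℕ → ℂ} {q r : ℕ} (hF : ∀ k, F (k + q) = F k) (hq : 0 < q)
    (hc : Nat.Coprime q r) : ∑ j ∈ range q, F (r * j) = ∑ j ∈ range q, F j := by
  have h1 : ∀ j, F (r * j) = F (r * j % q) := fun j => (per_mod hF _).symm
  rw [sum_congr rfl fun j _ => h1 j]
  have hinj : Set.InjOn (fun j => r * j % q) (range q : Set ℕ) := by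
    intro a ha b hb hab
    have ha' := mem_range.1 ha
    have hb' := mem_range.1 hb
    have h2 : r * a ≡ r * b [MOD q] := hab
    have h3 : a ≡ b [MOD q] := Nat.ModEq.cancel_left_of_coprime hc h2
    have h4 : a % q = b % q := h3
    rwa [Nat.mod_eq_of_lt ha', Nat.mod_eq_of_lt hb'] at h4
  have himg : (range q).image (fun j => r * j % q) = range q := by
    refine eq_of_subset_of_card_le ?_ ?_
    · intro x hx
      obtain ⟨j, -, rfl⟩ := mem_image.1 hx
      exact mem_range.2 (Nat.mod_lt _ hq)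
    · rw [card_image_of_injOn hinj]
  conv_rhs => rw [← himg]
  rw [sum_image hinj]

theorem per_sum_mul {F : ℕ → ℂ} {q : ℕ} (hF : ∀ k, F (k + q) = F k) (n : ℕ) :
    ∑ j ∈ range (q * n), F j = n * ∑ j ∈ range q, F j := by
  induction n with
  | zero => simp
  | succ n ih =>
    rw [mul_add, mul_one, sum_range_add, ih]
    have : ∀ j ∈ range q, F (q * n + j) = F j := fun j _ => by rw [add_comm]; exact per_mul hF n j
    rw [sum_congr rfl this]
    push_cast; ring

/-- the inner product of two limits along coprime numbers -/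
theorem inner_lim_lim {w : ℕ → E} (h : Stat w) {q r : ℕ} (hq : 0 < q) (hc : Nat.Coprime q r) :
    inner ℂ (lim _ (h.dil r)) (lim _ (h.dil q)) =
      (q : ℂ)⁻¹ * ∑ j ∈ range q, inner ℂ (w j) (lim _ (h.dil q)) := by
  set F : ℕ → ℂ := fun k => inner ℂ (w k) (lim _ (h.dil q)) with hF
  have hper : ∀ k, F (k + q) = F k := lim_per h q
  have h1 : Tendsto (fun n => inner ℂ (av (fun k => w (r * k)) (q * n)) (lim _ (h.dil q))) atTop
      (𝓝 (inner ℂ (lim _ (h.dil r)) (lim _ (h.dil q)))) := by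
    refine Tendsto.inner ((lim_tendsto (h.dil r)).comp ?_) tendsto_const_nhds
    exact tendsto_id.const_mul_atTop' hq
  have h2 : ∀ᶠ n : ℕ in atTop, inner ℂ (av (fun k => w (r * k)) (q * n)) (lim _ (h.dil q)) =
      (q : ℂ)⁻¹ * ∑ j ∈ range q, F j := by
    filter_upwards [eventually_gt_atTop 0] with n hn
    rw [av, inner_smul_left, ps, sum_inner]
    have e1 : ∑ j ∈ range (q * n), inner ℂ (w (r * j)) (lim _ (h.dil q)) =
        n * ∑ j ∈ range q, F (r * j) := by
      refine per_sum_mul (F := fun j => F (r * j)) (fun k => ?_) n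
      show F (r * (k + q)) = F (r * k)
      rw [mul_add, mul_comm r q]
      exact per_mul hper r _
    rw [e1, per_sum hper hq hc]
    have hn' : (n : ℂ) ≠ 0 := Nat.cast_ne_zero.2 hn.ne'
    have hq' : (q : ℂ) ≠ 0 := Nat.cast_ne_zero.2 hq.ne'
    simp only [map_inv₀, Complex.conj_natCast]
    push_cast
    field_simp
  exact tendsto_nhds_unique h1 ((tendsto_congr' h2).2 tendsto_const_nhds)

theorem inner_w_lim {w : ℕ → E} (h : Stat w) (q : ℕ) :
    inner ℂ (w 0) (lim _ (h.dil q)) = ((ell _ (h.dil q) : ℝ) : ℂ) ^ 2 := by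
  have h1 : Tendsto (fun n => inner ℂ (av (fun k => w (q * k)) n) (lim _ (h.dil q))) atTop
      (𝓝 (inner ℂ (lim _ (h.dil q)) (lim _ (h.dil q)))) :=
    (lim_tendsto (h.dil q)).inner tendsto_const_nhds
  have h2 : ∀ᶠ n : ℕ in atTop, inner ℂ (av (fun k => w (q * k)) n) (lim _ (h.dil q)) =
      inner ℂ (w 0) (lim _ (h.dil q)) := by
    filter_upwards [eventually_gt_atTop 0] with n hn
    rw [av, inner_smul_left, ps, sum_inner]
    have e1 : ∀ j ∈ range n, inner ℂ (w (q * j)) (lim _ (h.dil q)) =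
        inner ℂ (w 0) (lim _ (h.dil q)) := by
      intro j _
      have := per_mul (F := fun k => inner ℂ (w k) (lim _ (h.dil q))) (lim_per h q) j 0
      rw [zero_add] at this
      exact this
    rw [sum_congr rfl e1, sum_const, card_range, nsmul_eq_mul]
    have hn' : (n : ℂ) ≠ 0 := Nat.cast_ne_zero.2 hn.ne'
    simp only [map_inv₀, Complex.conj_natCast]
    field_simp
  have h3 := tendsto_nhds_unique h1 ((tendsto_congr' h2).2 tendsto_const_nhds)
  rw [← h3, inner_self_eq_norm_sq_to_K, norm_lim]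
  rfl

/-- the defect vectors -/
def fv (w : ℕ → E) (h : Stat w) (q : ℕ) : E := lim _ (h.dil q) - lim _ (h.dil 1)

theorem inner_one {w : ℕ → E} (h : Stat w) (q : ℕ) :
    inner ℂ (lim _ (h.dil q)) (lim _ (h.dil 1)) = ((ell _ (h.dil 1) : ℝ) : ℂ) ^ 2 := by
  rw [inner_lim_lim h one_pos (Nat.coprime_one_left q), sum_range_one, inner_w_lim h 1]
  simp

theorem inner_one' {w : ℕ → E} (h : Stat w) (q : ℕ) :
    inner ℂ (lim _ (h.dil 1)) (lim _ (h.dil q)) = ((ell _ (h.dil 1) : ℝ) : ℂ) ^ 2 := by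
  rw [← inner_conj_symm, inner_one h, map_pow, Complex.conj_ofReal]

theorem inner_cop {w : ℕ → E} (h : Stat w) {q r : ℕ} (hq : 0 < q) (hc : Nat.Coprime q r) :
    inner ℂ (lim _ (h.dil r)) (lim _ (h.dil q)) = ((ell _ (h.dil 1) : ℝ) : ℂ) ^ 2 := by
  rw [inner_lim_lim h hq hc, ← inner_lim_lim h hq (Nat.coprime_one_right q), inner_one' h]

theorem fv_orth {w : ℕ → E} (h : Stat w) {q r : ℕ} (hq : 0 < q) (hc : Nat.Coprime q r) :
    inner ℂ (fv w h r) (fv w h q) = 0 := by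
  rw [fv, fv, inner_sub_left, inner_sub_right, inner_sub_right, inner_cop h hq hc, inner_one h,
    inner_one' h, inner_one h]
  ring

theorem fv_norm {w : ℕ → E} (h : Stat w) (q : ℕ) :
    ‖fv w h q‖ ^ 2 = ell _ (h.dil q) ^ 2 - ell _ (h.dil 1) ^ 2 := by
  have h1 : inner ℂ (fv w h q) (fv w h q) =
      ((ell _ (h.dil q) : ℝ) : ℂ) ^ 2 - ((ell _ (h.dil 1) : ℝ) : ℂ) ^ 2 := by
    rw [fv, inner_sub_left, inner_sub_right, inner_sub_right, inner_one h, inner_one' h, inner_one h]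
    rw [inner_self_eq_norm_sq_to_K, norm_lim]
    simp
  rw [@norm_sq_eq_re_inner ℂ, h1]
  norm_cast

theorem fv_w {w : ℕ → E} (h : Stat w) (q : ℕ) :
    inner ℂ (w 0) (fv w h q) = ((‖fv w h q‖ ^ 2 : ℝ) : ℂ) := by
  rw [fv_norm, fv, inner_sub_right, inner_w_lim h, inner_w_lim h]
  push_cast; ring

/-- `∑ (L q - L 1) ≤ ‖w 0‖ ^ 2` -/
theorem sum_defect {w : ℕ → E} (h : Stat w) (P : Finset ℕ) (hP : ∀ q ∈ P, 0 < q)
    (hc : ∀ q ∈ P, ∀ r ∈ P, q ≠ r → Nat.Coprime q r) :
    ∑ q ∈ P, (ell _ (h.dil q) ^ 2 - ell _ (h.dil 1) ^ 2) ≤ ‖w 0‖ ^ 2 := by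
  set T : ℝ := ∑ q ∈ P, ‖fv w h q‖ ^ 2 with hT
  have hTT : ∑ q ∈ P, (ell _ (h.dil q) ^ 2 - ell _ (h.dil 1) ^ 2) = T :=
    sum_congr rfl fun q _ => (fv_norm h q).symm
  rw [hTT]
  set g : E := ∑ q ∈ P, fv w h q with hg
  have e1 : inner ℂ g g = ((T : ℝ) : ℂ) := by
    rw [hg, sum_inner, hT]
    push_cast
    refine sum_congr rfl fun q hq => ?_
    rw [inner_sum, sum_eq_single q]
    · rw [inner_self_eq_norm_sq_to_K]; rfl
    · intro r hr hrq
      exact fv_orth h (hP r hr) (hc r hr q hq hrq)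
    · intro hq'; exact absurd hq hq'
  have e2 : inner ℂ (w 0) g = ((T : ℝ) : ℂ) := by
    rw [hg, inner_sum, hT]
    push_cast
    refine sum_congr rfl fun q _ => ?_
    rw [fv_w]; norm_cast
  have e3 : ‖g‖ ^ 2 = T := by
    rw [@norm_sq_eq_re_inner ℂ, e1]; simp
  have e4 : T ≤ ‖w 0‖ * ‖g‖ := by
    have := norm_inner_le_norm (𝕜 := ℂ) (w 0) g
    rw [e2, Complex.norm_real] at this
    exact (le_abs_self _).trans this
  have e5 := norm_nonneg g
  have e6 := norm_nonneg (w 0)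
  nlinarith [sq_nonneg (‖w 0‖ - ‖g‖)]

/-- THE SPECTRAL LEMMA -/
theorem sdl {w : ℕ → E} (h : Stat w) : ∃ L : ℕ → ℝ,
    (∀ q, Tendsto (fun n : ℕ => ‖∑ k ∈ range n, w (q * k)‖ ^ 2 / (n : ℝ) ^ 2) atTop (𝓝 (L q))) ∧
    (∀ q n : ℕ, n ≠ 0 → L q ≤ ‖∑ k ∈ range n, w (q * k)‖ ^ 2 / (n : ℝ) ^ 2) ∧
    (∀ q, 0 ≤ L q) ∧ (∀ q, L 1 ≤ L q) ∧
    ∀ P : Finset ℕ, (∀ q ∈ P, 0 < q) → (∀ q ∈ P, ∀ r ∈ P, q ≠ r → Nat.Coprime q r) →
      ∑ q ∈ P, (L q - L 1) ≤ ‖w 0‖ ^ 2 := by
  refine ⟨fun q => ell _ (h.dil q) ^ 2, fun q => ?_, fun q n hn => ?_, fun q => sq_nonneg _,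
    fun q => ?_, fun P hP hc => sum_defect h P hP hc⟩
  · have := (ell_tendsto (h.dil q)).pow 2
    simpa only [div_pow, ps] using this
  · rw [← div_pow]
    exact pow_le_pow_left₀ (ell_nonneg _) (ell_le (h.dil q) hn) 2
  · have h1 := fv_norm h q
    have h2 := sq_nonneg ‖fv w h q‖
    show ell _ (h.dil 1) ^ 2 ≤ ell _ (h.dil q) ^ 2
    linarith

/-- averages over long windows of multiples of `n0` terms -/
theorem av_mul {w : ℕ → E} (h : Stat w) (n t : ℕ) (hn : n ≠ 0) (ht : t ≠ 0) :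
    ‖∑ k ∈ range (n * t), w k‖ ^ 2 / ((n * t : ℕ) : ℝ) ^ 2 ≤
      ‖∑ k ∈ range n, w k‖ ^ 2 / (n : ℝ) ^ 2 := by
  have h1 : ∀ t : ℕ, ‖ps w (n * t)‖ ≤ t * ‖ps w n‖ := by
    intro t
    induction t with
    | zero => simp [ps]
    | succ t ih =>
      have := h.subadd (n * t) n
      simp only at this
      rw [mul_add, mul_one]
      push_cast
      linarith
  have h2 := h1 t
  have hn0 : (0 : ℝ) < n := by positivity
  have ht0 : (0 : ℝ) < t := by positivity
  rw [← div_pow, ← div_pow]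
  refine pow_le_pow_left₀ (by positivity) ?_ 2
  push_cast
  rw [div_le_div_iff₀ (by positivity) hn0]
  show ‖ps w (n * t)‖ * n ≤ ‖ps w n‖ * (n * t)
  nlinarith

end Pool.Agent.Helper29.DZ
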