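import Pool.Agent.Helper29.DZ.SDL
import Pool.Agent.Helper40.DZ.Stmts

set_option autoImplicit false

open Finset Filter MeasureTheory Topology

namespace Pool.Agent.Helper40.DZ

theorem st_SDL : ST_SDL := by
  intro V _ _ _ w hw
  have h : Pool.Agent.Helper29.DZ.Stat w := hw
  obtain ⟨L, h1, h2, -, h4, h5⟩ := Pool.Agent.Helper29.DZ.sdl h
  refine ⟨⟨L, fun q _ => h1 q, fun q _ => h4 q, fun Q hQ hc => ?_, fun K hK => ?_⟩, ?_⟩
  · exact h5 Q (fun q hq => by have := hQ q hq; omega) hc
  · have := h2 1 K (by omega)
    simpa only [one_mul] using this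
  · intro p H t
    have hs := (h.dil p).subadd
    induction t with
    | zero => simp
    | succ t ih =>
      have h6 := hs (H * t) H
      simp only [Pool.Agent.Helper29.DZ.ps] at h6
      rw [mul_add, mul_one]
      push_cast
      linarith

end Pool.Agent.Helper40.DZ
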